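import Pool.Agent.Q231.Circ.Defs

/-!
# Circular chromatic number less than three
-/

namespace Pool.Agent.Q231.Circ

open Pool.Agent.NPC.H634R2

/-- the condition on the colours of adjacent vertices -/
def Good (p q x y : ℕ) : Prop :=
  (x + q ≤ y ∧ y + q ≤ x + p) ∨ (y + q ≤ x ∧ x + q ≤ y + p)

theorem good_iff {p q x y : ℕ} :
    ((q : ℤ) ≤ |(x : ℤ) - y| ∧ |(x : ℤ) - y| ≤ (p : ℤ) - q) ↔
      Good p q x y ∨ (q = 0 ∧ x = y) := by
  unfold Good
  rcases le_total (x : ℤ) y with h | h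
  · rw [abs_of_nonpos (by omega)]
    omega
  · rw [abs_of_nonneg (by omega)]
    omega

theorem Good.symm {p q x y : ℕ} (h : Good p q x y) : Good p q y x := Or.symm h

theorem isColouring_iff {V : List ℕ} {E : List (ℕ × ℕ)} {p q : ℕ} (hq : 1 ≤ q) {c : ℕ → ℕ} :
    IsColouring V E p q c ↔ (∀ v ∈ V, c v < p) ∧ ∀ e ∈ E, Good p q (c e.1) (c e.2) := by
  unfold IsColouring
  refine and_congr_right fun _ => forall₂_congr fun e _ => ?_
  rw [good_iff]
  constructor
  · rintro (h | h)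
    · exact h
    · omega
  · exact Or.inl

theorem nonempty_set {V : List ℕ} {E : List (ℕ × ℕ)} (hG : IsGraph V E) :
    {r : ℝ | ∃ p q : ℕ, 2 ≤ 2 * q ∧ 2 * q ≤ p ∧ (∃ c, IsColouring V E p q c) ∧
    r = (p : ℝ) / q}.Nonempty := by
  refine ⟨_, V.length + 2, 1, by omega, by omega, ⟨fun v => V.idxOf v, ?_⟩, rfl⟩
  rw [isColouring_iff le_rfl]
  refine ⟨fun v hv => ?_, fun e he => ?_⟩
  · have := List.idxOf_lt_length_of_mem hv
    omega
  · obtain ⟨h1, h2, h3⟩ := hG.2.1 e he
    have h4 := List.idxOf_lt_length_of_mem h1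
    have h5 := List.idxOf_lt_length_of_mem h2
    have h6 : V.idxOf e.1 ≠ V.idxOf e.2 := fun h => h3 ((List.idxOf_inj h1).1 h)
    unfold Good
    omega

theorem bddBelow_set {V : List ℕ} {E : List (ℕ × ℕ)} :
    BddBelow {r : ℝ | ∃ p q : ℕ, 2 ≤ 2 * q ∧ 2 * q ≤ p ∧ (∃ c, IsColouring V E p q c) ∧
    r = (p : ℝ) / q} := by
  refine ⟨0, ?_⟩
  rintro r ⟨p, q, _, _, _, rfl⟩
  positivity

theorem le_of_colouring {V : List ℕ} {E : List (ℕ × ℕ)} {p q : ℕ} (hq : 1 ≤ q) (hp : 2 * q ≤ p)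
    {c : ℕ → ℕ} (hc : IsColouring V E p q c) :
    circularChromaticNumber V E ≤ (p : ℝ) / q :=
  csInf_le bddBelow_set ⟨p, q, by omega, hp, ⟨c, hc⟩, rfl⟩

theorem exists_of_lt {V : List ℕ} {E : List (ℕ × ℕ)} (hG : IsGraph V E)
    (h : circularChromaticNumber V E < 3) :
    ∃ p q c, 1 ≤ q ∧ 2 * q ≤ p ∧ p < 3 * q ∧ IsColouring V E p q c := by
  obtain ⟨r, ⟨p, q, h1, h2, ⟨c, hc⟩, rfl⟩, hr⟩ := exists_lt_of_csInf_lt (nonempty_set hG) h
  refine ⟨p, q, c, by omega, h2, ?_, hc⟩
  have hq : (0 : ℝ) < q := by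
    have : 0 < q := by omega
    exact_mod_cast this
  rw [div_lt_iff₀ hq] at hr
  exact_mod_cast hr

/-- The step in an edge. -/
theorem step {p q a b : ℕ} (hp : p < 3 * q) (ha : a < p) (hb : b < p) (h : Good p q a b) :
    ∃ i r j s, a = q * i + r ∧ b = q * j + s ∧ r < q ∧ s < q ∧ i < 3 ∧ j < 3 ∧
      ((j = i + 1 ∧ r ≤ s) ∨ (i = j + 1 ∧ s ≤ r) ∨ (i = 0 ∧ j = 2 ∧ s < r) ∨
        (j = 0 ∧ i = 2 ∧ r < s)) := by
  have hq : 0 < q := by omega
  refine ⟨a / q, a % q, b / q, b % q, (Nat.div_add_mod a q).symm, (Nat.div_add_mod b q).symm,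
    Nat.mod_lt _ hq, Nat.mod_lt _ hq, (Nat.div_lt_iff_lt_mul hq).2 (by omega),
    (Nat.div_lt_iff_lt_mul hq).2 (by omega), ?_⟩
  have h1 := Nat.div_add_mod a q
  have h2 := Nat.div_add_mod b q
  have h3 := Nat.mod_lt a hq
  have h4 := Nat.mod_lt b hq
  have h5 : a / q < 3 := (Nat.div_lt_iff_lt_mul hq).2 (by omega)
  have h6 : b / q < 3 := (Nat.div_lt_iff_lt_mul hq).2 (by omega)
  generalize a / q = i at *
  generalize b / q = j at *
  generalize a % q = r at *
  generalize b % q = s at *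
  unfold Good at h
  interval_cases i <;> interval_cases j <;> omega

/-- the potential of a colour -/
def pot (q a : ℕ) : ℕ := 3 * (a % q) + a / q

/-- the rank of a vertex -/
def rk (V : List ℕ) (q : ℕ) (c : ℕ → ℕ) (v : ℕ) : ℕ :=
  (V.toFinset.filter (fun u => pot q (c u) < pot q (c v))).card

theorem rk_lt {V : List ℕ} {q : ℕ} {c : ℕ → ℕ} {u v : ℕ} (hu : u ∈ V)
    (h : pot q (c u) < pot q (c v)) : rk V q c u < rk V q c v := by
  unfold rk
  refine Finset.card_lt_card ?_
  rw [Finset.ssubset_iff_of_subset]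
  · refine ⟨u, ?_, ?_⟩
    · simp [hu, h]
    · simp
  · intro w hw
    rw [Finset.mem_filter] at hw ⊢
    exact ⟨hw.1, hw.2.trans h⟩

theorem rk_bound {V : List ℕ} {q : ℕ} {c : ℕ → ℕ} {v : ℕ} (hv : v ∈ V) :
    rk V q c v < V.length := by
  unfold rk
  refine lt_of_lt_of_le (Finset.card_lt_card (t := V.toFinset) ?_) (List.toFinset_card_le V)
  rw [Finset.ssubset_iff_of_subset (Finset.filter_subset _ _)]
  exact ⟨v, by simpa using hv, by simp⟩

/-- From any colouring showing that the circular chromatic number is less than three we obtain one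
with small numbers. -/
theorem small_colouring {V : List ℕ} {E : List (ℕ × ℕ)} (hG : IsGraph V E) {p q : ℕ} {c : ℕ → ℕ}
    (hq : 1 ≤ q) (hp : p < 3 * q) (hc : IsColouring V E p q c) :
    IsColouring V E (3 * V.length + 2) (V.length + 1)
      (fun v => (c v / q) * (V.length + 1) + rk V q c v) := by
  rw [isColouring_iff hq] at hc
  rw [isColouring_iff (by omega)]
  constructor
  · intro v hv
    have h1 := rk_bound (q := q) (c := c) hv
    have h2 := hc.1 v hv
    have h5 : c v / q < 3 := (Nat.div_lt_iff_lt_mul hq).2 (by omega)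
    have h6 : c v / q * (V.length + 1) ≤ 2 * (V.length + 1) :=
      Nat.mul_le_mul_right _ (by omega)
    omega
  · rintro ⟨u, v⟩ he
    obtain ⟨hu, hv, _⟩ := hG.2.1 _ he
    simp only at hu hv ⊢
    have h1 := rk_bound (q := q) (c := c) hv
    have h2 := rk_bound (q := q) (c := c) hu
    obtain ⟨i, r, j, s, ha, hb, hr, hs, hi, hj, h⟩ := step hp (hc.1 u hu) (hc.1 v hv) (hc.2 _ he)
    have hai : c u / q = i := by
      rw [ha, Nat.mul_add_div hq, Nat.div_eq_of_lt hr, add_zero]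
    have har : c u % q = r := by
      rw [ha, Nat.mul_add_mod, Nat.mod_eq_of_lt hr]
    have hbj : c v / q = j := by
      rw [hb, Nat.mul_add_div hq, Nat.div_eq_of_lt hs, add_zero]
    have hbs : c v % q = s := by
      rw [hb, Nat.mul_add_mod, Nat.mod_eq_of_lt hs]
    have hpu : pot q (c u) = 3 * r + i := by unfold pot; rw [hai, har]
    have hpv : pot q (c v) = 3 * s + j := by unfold pot; rw [hbj, hbs]
    have huv : pot q (c u) < pot q (c v) → rk V q c u < rk V q c v := fun h => rk_lt hu h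
    have hvu : pot q (c v) < pot q (c u) → rk V q c v < rk V q c u := fun h => rk_lt hv h
    rw [hai, hbj]
    rw [hpu, hpv] at huv
    rw [hpu, hpv] at hvu
    generalize rk V q c u = x at *
    generalize rk V q c v = y at *
    generalize V.length = n at *
    unfold Good
    rcases h with ⟨rfl, h⟩ | ⟨rfl, h⟩ | ⟨rfl, rfl, h⟩ | ⟨rfl, rfl, h⟩
    · have := huv (by omega)
      rw [Nat.add_mul]
      generalize i * (n + 1) = m at *
      omega
    · have := hvu (by omega)
      rw [Nat.add_mul]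
      generalize j * (n + 1) = m at *
      omega
    · have := hvu (by omega)
      omega
    · have := huv (by omega)
      omega

theorem circ_iff {V : List ℕ} {E : List (ℕ × ℕ)} (hG : IsGraph V E) :
    circularChromaticNumber V E < 3 ↔
      ∃ c, IsColouring V E (3 * V.length + 2) (V.length + 1) c := by
  constructor
  · intro h
    obtain ⟨p, q, c, h1, _, h3, hc⟩ := exists_of_lt hG h
    exact ⟨_, small_colouring hG h1 h3 hc⟩
  · rintro ⟨c, hc⟩
    refine (le_of_colouring (by omega) (by omega) hc).trans_lt ?_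
    rw [div_lt_iff₀ (by positivity)]
    push_cast
    linarith

end Pool.Agent.Q231.Circ
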