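import Pool.Agent.NPC.Defs
import Pool.Agent.H634R2.GraphDefs

/-!
# The circular chromatic number
-/

namespace Pool.Agent.Q231.Circ

/-- `c` is a **`(p, q)`-colouring** of the graph with the list `V` of vertices and the list `E` of
edges: the colours are `0, ..., p - 1`, and the colours `x`, `y` of the ends of every edge satisfy
`q ≤ |x - y| ≤ p - q`. -/
def IsColouring (V : List ℕ) (E : List (ℕ × ℕ)) (p q : ℕ) (c : ℕ → ℕ) : Prop :=
  (∀ v ∈ V, c v < p) ∧
    ∀ e ∈ E, (q : ℤ) ≤ |(c e.1 : ℤ) - c e.2| ∧ |(c e.1 : ℤ) - c e.2| ≤ (p : ℤ) - q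

/-- The **circular chromatic number**: the infimum of the fractions `p / q` with `p ≥ 2 q ≥ 2` such
that the graph has a `(p, q)`-colouring. -/
noncomputable def circularChromaticNumber (V : List ℕ) (E : List (ℕ × ℕ)) : ℝ :=
  sInf {r : ℝ | ∃ p q : ℕ, 2 ≤ 2 * q ∧ 2 * q ≤ p ∧ (∃ c, IsColouring V E p q c) ∧
    r = (p : ℝ) / q}

/-- **The problem CIRC<3**: `G = (V, E)` is a finite simple graph with circular chromatic number less
than `3`. -/
def CircLessThree (G : List ℕ × List (ℕ × ℕ)) : Prop :=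
  Pool.Agent.NPC.H634R2.IsGraph G.1 G.2 ∧ circularChromaticNumber G.1 G.2 < 3

end Pool.Agent.Q231.Circ
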