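import Pool.Agent.Q231.Circ.Red

/-!
# Circular chromatic number less than three: polynomial time and membership in NP
-/

namespace Pool.Agent.Q231.Circ

open Pool.Agent.NPC Pool.Agent.NPC.H634R2 Pool.Agent.Q231.Gr Pool.Agent.Q231.NaeN

theorem edges_poly {α : Type} [TEnc α] {φ : α → List (ℕ × ℕ × ℕ)} (h : Poly φ) :
    Poly (fun a => edges (φ a)) := by
  unfold edges occ ext
  fun_prop

attribute [local fun_prop] edges_poly normV_poly normE_poly

theorem red_poly : Poly red := by
  unfold red
  fun_prop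

theorem hardI : HardI CircLessThree := hardI_NAEn.trans red_poly red_correct

/-! ### Membership in NP -/

/-- the test for two colours -/
def goodB (p q x y : ℕ) : Bool :=
  (decide (x + q ≤ y) && decide (y + q ≤ x + p)) || (decide (y + q ≤ x) && decide (x + q ≤ y + p))

theorem goodB_iff {p q x y : ℕ} : goodB p q x y = true ↔ Good p q x y := by
  unfold goodB Good
  simp only [Bool.or_eq_true, Bool.and_eq_true, decide_eq_true_eq]

/-- the test for a colouring given by the list of its pairs (vertex, colour) -/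
def test (x : (List ℕ × List (ℕ × ℕ)) × List (ℕ × ℕ)) : Bool :=
  isGraphB x.1.1 x.1.2 &&
    (x.1.1.all fun v => x.2.any fun w => decide (w.1 = v) &&
      decide (w.2 < 3 * x.1.1.length + 2)) &&
    (x.1.2.all fun e => x.2.all fun w => x.2.all fun w' => !decide (w.1 = e.1) ||
      !decide (w'.1 = e.2) ||
      goodB (3 * x.1.1.length + 2) (x.1.1.length + 1) w.2 w'.2)

attribute [local fun_prop] isGraphB_poly

theorem goodB_poly {α : Type} [TEnc α] {p q x y : α → ℕ} (hp : Poly p) (hq : Poly q) (hx : Poly x)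
    (hy : Poly y) : Poly (fun a => goodB (p a) (q a) (x a) (y a)) := by
  unfold goodB
  fun_prop

attribute [local fun_prop] goodB_poly

theorem test_poly : Poly test := by
  unfold test
  fun_prop

theorem sz_pairs (V : List ℕ) (c : ℕ → ℕ) (N : ℕ) (hc : ∀ v ∈ V, sz (c v) ≤ N) :
    sz (V.map (fun v => (v, c v))) ≤ sz V + V.length * (N + 2) := by
  induction V with
  | nil => simp
  | cons v V ih =>
    have h1 := ih fun w hw => hc w (List.mem_cons_of_mem _ hw)
    have h2 := hc v List.mem_cons_self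
    simp only [List.map_cons, List.length_cons]
    rw [Nat.add_mul]
    simp
    omega

theorem len_le_sz {β : Type} [TEnc β] (l : List β) : l.length ≤ sz l := by
  induction l with
  | nil => simp
  | cons a l ih => simp; omega

theorem sz_nat_le_self (n : ℕ) : sz n ≤ 4 * n + 1 := by
  have h1 := sz_nat_le n
  have h2 : n.size ≤ n := Nat.size_le.2 Nat.lt_two_pow_self
  omega

theorem inNP : InNPP CircLessThree := by
  refine inNPP_of (R := test) test_poly (12 * Polynomial.X ^ 2 + 12 * Polynomial.X) ?_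
  rintro ⟨V, E⟩
  have hsz : (12 * Polynomial.X ^ 2 + 12 * Polynomial.X : Polynomial ℕ).eval
      (sz ((V, E) : List ℕ × List (ℕ × ℕ))) =
      12 * sz ((V, E) : List ℕ × List (ℕ × ℕ)) ^ 2 + 12 * sz ((V, E) : List ℕ × List (ℕ × ℕ)) := by
    simp
  rw [hsz]
  constructor
  · rintro ⟨hG, h⟩
    simp only at hG h
    rw [circ_iff hG] at h
    obtain ⟨c, hc⟩ := h
    rw [isColouring_iff (by omega)] at hc
    refine ⟨V.map (fun v => (v, c v)), ?_, ?_⟩
    · have h1 := sz_pairs V c (4 * (3 * V.length + 2) + 1) (fun v hv => by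
        have := hc.1 v hv
        have := sz_nat_le_self (c v)
        omega)
      have h2 := len_le_sz V
      have h3 : sz V ≤ sz ((V, E) : List ℕ × List (ℕ × ℕ)) := by simp; omega
      have h4 := h2.trans h3
      generalize sz ((V, E) : List ℕ × List (ℕ × ℕ)) = s at *
      generalize V.length = n at *
      have h5 : n * (4 * (3 * n + 2) + 1 + 2) ≤ s * (4 * (3 * s + 2) + 1 + 2) :=
        Nat.mul_le_mul h4 (by omega)
      nlinarith
    · unfold test
      simp only [Bool.and_eq_true, List.all_eq_true, List.any_eq_true, decide_eq_true_eq,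
        Bool.or_eq_true, Bool.not_eq_true', decide_eq_false_iff_not, isGraphB_iff, goodB_iff]
      refine ⟨⟨hG, fun v hv => ⟨(v, c v), List.mem_map_of_mem hv, rfl, hc.1 v hv⟩⟩, ?_⟩
      intro e he w hw w' hw'
      rw [List.mem_map] at hw hw'
      obtain ⟨v, _, rfl⟩ := hw
      obtain ⟨v', _, rfl⟩ := hw'
      by_cases h1 : v = e.1
      · by_cases h2 : v' = e.2
        · right
          rw [h1, h2]
          exact hc.2 e he
        · exact Or.inl (Or.inr h2)
      · exact Or.inl (Or.inl h1)
  · rintro ⟨w, _, hw⟩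
    unfold test at hw
    simp only [Bool.and_eq_true, List.all_eq_true, List.any_eq_true, decide_eq_true_eq,
      Bool.or_eq_true, Bool.not_eq_true', decide_eq_false_iff_not, isGraphB_iff, goodB_iff] at hw
    obtain ⟨⟨hG, h1⟩, h2⟩ := hw
    refine ⟨hG, (circ_iff hG).2 ?_⟩
    have h3 : ∀ v, ∃ x, v ∈ V → (v, x) ∈ w ∧ x < 3 * V.length + 2 := by
      intro v
      by_cases hv : v ∈ V
      · obtain ⟨⟨v', x⟩, h4, rfl, h5⟩ := h1 v hv
        exact ⟨x, fun _ => ⟨h4, h5⟩⟩
      · exact ⟨0, fun h => absurd h hv⟩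
    choose c hc using h3
    refine ⟨c, (isColouring_iff (by omega)).2 ⟨fun v hv => (hc v hv).2, fun e he => ?_⟩⟩
    obtain ⟨hu, hv, _⟩ := hG.2.1 e he
    rcases h2 e he _ (hc _ hu).1 _ (hc _ hv).1 with (h | h) | h
    · exact absurd rfl h
    · exact absurd rfl h
    · exact h

/-- Hardness with a gap. -/
theorem gap {L : Set (List Bool)} (hL : InNP L) :
    ∃ f : List Bool → List ℕ × List (ℕ × ℕ), PolyTime (fun x => bits (f x)) ∧
      (∀ x, IsGraph (f x).1 (f x).2) ∧
      (∀ x ∈ L, circularChromaticNumber (f x).1 (f x).2 ≤ 8 / 3) ∧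
      ∀ x ∉ L, 3 ≤ circularChromaticNumber (f x).1 (f x).2 := by
  obtain ⟨f, hf, h⟩ := hardI_NAEn L hL
  have h2 : PC (fun x : List Bool => x) (bits : List ℕ × List (ℕ × ℕ) → List Bool)
      (fun x => red (f x)) := PC.comp red_poly hf
  refine ⟨fun x => red (f x), PC.toPolyTime h2, fun x => isGraph_norm _,
    fun x hx => le_of_nae ((h x).1 hx), fun x hx => ?_⟩
  by_contra hlt
  exact hx ((h x).2 (nae_of_lt (not_le.1 hlt)))

end Pool.Agent.Q231.Circ
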