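import Pool.Agent.Q231.Circ.Basic
import Pool.Agent.Q231.GrNorm
import Pool.Agent.Q231.NaeN

/-!
# The reduction from not-all-equal satisfiability to circular chromatic number less than three

All pentagons of the graph that contain the vertex `0` have a sign (their direction around the
circle of colours).  Three pentagons that meet at the vertex `0` and pairwise share an edge do not
all have the same sign.
-/

namespace Pool.Agent.Q231.Circ

open Pool.Agent.NPC Pool.Agent.NPC.H634R2 Pool.Agent.Q231.Gr Pool.Agent.Q231.NaeN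

/-- the edges for the `t`-th variable `v` of clause `i` -/
def occ (i t v : ℕ) : List (ℕ × ℕ) :=
  [(0, 16 * v + 1), (0, 16 * v + 2), (16 * i + t + 3, 16 * v + 1),
    (16 * i + t + 6, 16 * i + t + 3), (16 * i + t + 6, 16 * v + 2), (0, 16 * i + t + 9)]

/-- the edges of the gadget of clause `i` -/
def ext (i : ℕ) : List (ℕ × ℕ) :=
  [(16 * i + 3, 16 * i + 10), (16 * i + 3, 16 * i + 12), (16 * i + 12, 16 * i + 9),
    (16 * i + 4, 16 * i + 11), (16 * i + 4, 16 * i + 13), (16 * i + 13, 16 * i + 10),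
    (16 * i + 5, 16 * i + 9), (16 * i + 5, 16 * i + 14), (16 * i + 14, 16 * i + 11)]

/-- all edges -/
def edges (φ : List (ℕ × ℕ × ℕ)) : List (ℕ × ℕ) :=
  φ.zipIdx.flatMap (fun p => occ p.2 0 p.1.1 ++ occ p.2 1 p.1.2.1 ++ occ p.2 2 p.1.2.2 ++ ext p.2)

/-- the graph -/
def red (φ : List (ℕ × ℕ × ℕ)) : List ℕ × List (ℕ × ℕ) := (normV (edges φ), normE (edges φ))

theorem mem_edges {φ : List (ℕ × ℕ × ℕ)} {e : ℕ × ℕ} : e ∈ edges φ ↔
    ∃ i v1 v2 v3, φ[i]? = some (v1, v2, v3) ∧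
      (e ∈ occ i 0 v1 ∨ e ∈ occ i 1 v2 ∨ e ∈ occ i 2 v3 ∨ e ∈ ext i) := by
  unfold edges
  rw [List.mem_flatMap]
  constructor
  · rintro ⟨⟨⟨v1, v2, v3⟩, i⟩, hp, he⟩
    rw [List.mem_zipIdx_iff_getElem?] at hp
    simp only [List.mem_append] at he hp
    exact ⟨i, v1, v2, v3, hp, by tauto⟩
  · rintro ⟨i, v1, v2, v3, h, he⟩
    refine ⟨((v1, v2, v3), i), List.mem_zipIdx_iff_getElem?.2 h, ?_⟩
    simp only [List.mem_append]
    tauto

theorem edges_ne (φ : List (ℕ × ℕ × ℕ)) : ∀ e ∈ edges φ, e.1 ≠ e.2 := by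
  rintro ⟨x, y⟩ he
  rw [mem_edges] at he
  obtain ⟨i, v1, v2, v3, _, h⟩ := he
  simp only [occ, ext, List.mem_cons, List.not_mem_nil, or_false, Prod.mk.injEq] at h
  simp only
  omega

/-! ### Soundness -/

/-- the colours after a rotation which moves `z` to `0` -/
def rot (p z x : ℕ) : ℕ := if z ≤ x then x - z else x + p - z

theorem rot_good {p q z x y : ℕ} (hz : z < p) (hx : x < p) (_hy : y < p) (h : Good p q x y) :
    Good p q (rot p z x) (rot p z y) := by
  unfold rot Good at *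
  split_ifs <;> omega

/-- The sign of a pentagon. -/
theorem pent {p q a c y b : ℕ} (h3 : p < 3 * q) (_hy : y < p) (_hb : b < p)
    (h1 : Good p q 0 a) (h2 : Good p q 0 c) (h4 : Good p q y a)
    (h5 : Good p q b y) (h6 : Good p q b c) : (y < q ∧ c < a) ∨ (q ≤ y ∧ a < c) := by
  unfold Good at *
  omega

theorem clash {q y1 y2 y3 u0 u1 u2 a1 c1 a2 c2 a3 c3 : ℕ}
    (q1 : (y1 < q ∧ u0 < u1) ∨ (q ≤ y1 ∧ u1 < u0)) (q2 : (y2 < q ∧ u1 < u2) ∨ (q ≤ y2 ∧ u2 < u1))
    (q3 : (y3 < q ∧ u2 < u0) ∨ (q ≤ y3 ∧ u0 < u2))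
    (s1 : (y1 < q ∧ c1 < a1) ∨ (q ≤ y1 ∧ a1 < c1)) (s2 : (y2 < q ∧ c2 < a2) ∨ (q ≤ y2 ∧ a2 < c2))
    (s3 : (y3 < q ∧ c3 < a3) ∨ (q ≤ y3 ∧ a3 < c3)) (h1 : c1 < a1 ↔ c2 < a2)
    (h2 : c2 < a2 ↔ c3 < a3) : False := by
  omega

theorem sound {φ : List (ℕ × ℕ × ℕ)} {p q : ℕ} {c : ℕ → ℕ} (hp : p < 3 * q)
    (hV : ∀ v ∈ normV (edges φ), c v < p)
    (hE : ∀ e ∈ edges φ, Good p q (c e.1) (c e.2)) : NAEn φ := by
  let f : ℕ → ℕ := fun v => rot p (c 0) (c v)
  refine ⟨fun v => decide (f (16 * v + 2) < f (16 * v + 1)), ?_⟩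
  intro t ht
  obtain ⟨i, hi⟩ := List.getElem?_of_mem ht
  obtain ⟨v1, v2, v3⟩ := t
  have hlt : ∀ e ∈ edges φ, c e.1 < p ∧ c e.2 < p := fun e he =>
    ⟨hV _ (mem_normV.2 ⟨e, he, Or.inl rfl⟩), hV _ (mem_normV.2 ⟨e, he, Or.inr rfl⟩)⟩
  have hmem : ∀ e, (e ∈ occ i 0 v1 ∨ e ∈ occ i 1 v2 ∨ e ∈ occ i 2 v3 ∨ e ∈ ext i) →
      e ∈ edges φ := fun e he => mem_edges.2 ⟨i, v1, v2, v3, hi, he⟩
  have h0 : c 0 < p := (hlt (0, 16 * v1 + 1) (hmem _ (Or.inl (by simp [occ])))).1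
  have hf0 : f 0 = 0 := by simp [f, rot]
  have hfl : ∀ v, c v < p → f v < p := by
    intro v hv
    simp only [f, rot]
    split_ifs <;> omega
  have key : ∀ e, (e ∈ occ i 0 v1 ∨ e ∈ occ i 1 v2 ∨ e ∈ occ i 2 v3 ∨ e ∈ ext i) →
      Good p q (f e.1) (f e.2) ∧ f e.1 < p ∧ f e.2 < p := by
    intro e he
    have h1 := hmem e he
    obtain ⟨h2, h3⟩ := hlt e h1
    exact ⟨rot_good h0 h2 h3 (hE e h1), hfl _ h2, hfl _ h3⟩
  -- the signs of the variables
  have sgn : ∀ t v, (t = 0 ∧ v = v1 ∨ t = 1 ∧ v = v2 ∨ t = 2 ∧ v = v3) →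
      (f (16 * i + t + 3) < q ∧ f (16 * v + 2) < f (16 * v + 1)) ∨
      (q ≤ f (16 * i + t + 3) ∧ f (16 * v + 1) < f (16 * v + 2)) := by
    intro t v htv
    have hm : ∀ e ∈ occ i t v, Good p q (f e.1) (f e.2) ∧ f e.1 < p ∧ f e.2 < p := by
      intro e he
      refine key e ?_
      rcases htv with ⟨rfl, rfl⟩ | ⟨rfl, rfl⟩ | ⟨rfl, rfl⟩
      · exact Or.inl he
      · exact Or.inr (Or.inl he)
      · exact Or.inr (Or.inr (Or.inl he))
    have e1 := hm (0, 16 * v + 1) (by simp [occ])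
    have e2 := hm (0, 16 * v + 2) (by simp [occ])
    have e3 := hm (16 * i + t + 3, 16 * v + 1) (by simp [occ])
    have e4 := hm (16 * i + t + 6, 16 * i + t + 3) (by simp [occ])
    have e5 := hm (16 * i + t + 6, 16 * v + 2) (by simp [occ])
    simp only [hf0] at e1 e2 e3 e4 e5
    exact pent hp e3.2.1 e4.2.1 e1.1 e2.1 e3.1 e4.1 e5.1
  -- the gadget
  have u0 := key (0, 16 * i + 0 + 9) (Or.inl (by simp [occ]))
  have u1 := key (0, 16 * i + 1 + 9) (Or.inr (Or.inl (by simp [occ])))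
  have u2 := key (0, 16 * i + 2 + 9) (Or.inr (Or.inr (Or.inl (by simp [occ]))))
  have g1 := key (16 * i + 3, 16 * i + 10) (Or.inr (Or.inr (Or.inr (by simp [ext]))))
  have g2 := key (16 * i + 3, 16 * i + 12) (Or.inr (Or.inr (Or.inr (by simp [ext]))))
  have g3 := key (16 * i + 12, 16 * i + 9) (Or.inr (Or.inr (Or.inr (by simp [ext]))))
  have g4 := key (16 * i + 4, 16 * i + 11) (Or.inr (Or.inr (Or.inr (by simp [ext]))))
  have g5 := key (16 * i + 4, 16 * i + 13) (Or.inr (Or.inr (Or.inr (by simp [ext]))))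
  have g6 := key (16 * i + 13, 16 * i + 10) (Or.inr (Or.inr (Or.inr (by simp [ext]))))
  have g7 := key (16 * i + 5, 16 * i + 9) (Or.inr (Or.inr (Or.inr (by simp [ext]))))
  have g8 := key (16 * i + 5, 16 * i + 14) (Or.inr (Or.inr (Or.inr (by simp [ext]))))
  have g9 := key (16 * i + 14, 16 * i + 11) (Or.inr (Or.inr (Or.inr (by simp [ext]))))
  simp only [hf0, add_zero, show 16 * i + 1 + 9 = 16 * i + 10 by omega,
    show 16 * i + 2 + 9 = 16 * i + 11 by omega] at u0 u1 u2 g1 g2 g3 g4 g5 g6 g7 g8 g9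
  have q1 := pent hp g1.2.1 g2.2.2 u1.1 u0.1 g1.1 g2.1.symm g3.1
  have q2 := pent hp g4.2.1 g5.2.2 u2.1 u1.1 g4.1 g5.1.symm g6.1
  have q3 := pent hp g7.2.1 g8.2.2 u0.1 u2.1 g7.1 g8.1.symm g9.1
  have s1 := sgn 0 v1 (Or.inl ⟨rfl, rfl⟩)
  have s2 := sgn 1 v2 (Or.inr (Or.inl ⟨rfl, rfl⟩))
  have s3 := sgn 2 v3 (Or.inr (Or.inr ⟨rfl, rfl⟩))
  simp only [add_zero, show 16 * i + 1 + 3 = 16 * i + 4 by omega,
    show 16 * i + 2 + 3 = 16 * i + 5 by omega] at s1 s2 s3
  rintro ⟨h1, h2⟩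
  simp only [decide_eq_decide] at h1 h2
  exact clash q1 q2 q3 s1 s2 s3 h1 h2

/-! ### Completeness -/

/-- the colours in the gadget of a clause -/
def tab : Bool × Bool × Bool → List ℕ
  | (true, true, false) => [1, 2, 7, 6, 6, 2, 3, 4, 5, 6, 7, 2]
  | (true, false, true) => [2, 7, 1, 6, 2, 6, 4, 5, 3, 7, 2, 6]
  | (true, false, false) => [1, 7, 6, 6, 2, 2, 3, 5, 4, 6, 2, 1]
  | (false, true, true) => [7, 1, 2, 2, 6, 6, 5, 3, 4, 2, 6, 7]
  | (false, true, false) => [6, 1, 7, 2, 6, 2, 4, 3, 5, 1, 6, 2]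
  | (false, false, true) => [7, 6, 1, 2, 2, 6, 5, 4, 3, 2, 1, 6]
  | _ => []

/-- the signs of the variables of a clause -/
def sig (φ : List (ℕ × ℕ × ℕ)) (τ : ℕ → Bool) (i : ℕ) : Bool × Bool × Bool :=
  match φ[i]? with
  | some t => (τ t.1, τ t.2.1, τ t.2.2)
  | none => (false, false, false)

/-- the colouring -/
def colour (φ : List (ℕ × ℕ × ℕ)) (τ : ℕ → Bool) (n : ℕ) : ℕ :=
  if n % 16 = 0 then 0 else
  if n % 16 = 1 then (if τ (n / 16) then 5 else 3) else
  if n % 16 = 2 then (if τ (n / 16) then 3 else 5) else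
  (tab (sig φ τ (n / 16))).getD (n % 16 - 3) 0

theorem tab_lt (s : Bool × Bool × Bool) (k : ℕ) (hk : k < 13) : (tab s).getD k 0 < 8 := by
  obtain ⟨a, b, c⟩ := s
  have : ∀ a b c : Bool, ∀ k : Fin 13, (tab (a, b, c)).getD k 0 < 8 := by decide
  exact this a b c ⟨k, hk⟩

theorem colour_lt (φ : List (ℕ × ℕ × ℕ)) (τ : ℕ → Bool) (n : ℕ) : colour φ τ n < 8 := by
  unfold colour
  split_ifs
  any_goals omega
  exact tab_lt _ _ (by omega)

instance (p q x y : ℕ) : Decidable (Good p q x y) := by unfold Good; infer_instance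

theorem colour_occ {φ : List (ℕ × ℕ × ℕ)} {τ : ℕ → Bool} {i v1 v2 v3 : ℕ}
    (hi : φ[i]? = some (v1, v2, v3)) (hτ : ¬ (τ v1 = τ v2 ∧ τ v2 = τ v3)) (e : ℕ × ℕ)
    (he : e ∈ occ i 0 v1 ∨ e ∈ occ i 1 v2 ∨ e ∈ occ i 2 v3 ∨ e ∈ ext i) :
    Good 8 3 (colour φ τ e.1) (colour φ τ e.2) := by
  have hs : sig φ τ i = (τ v1, τ v2, τ v3) := by
    unfold sig
    rw [hi]
  have c0 : colour φ τ 0 = 0 := by simp [colour]
  have c1 : ∀ v, colour φ τ (16 * v + 1) = if τ v then 5 else 3 := by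
    intro v
    unfold colour
    rw [if_neg (by omega), if_pos (by omega), show (16 * v + 1) / 16 = v by omega]
  have c2 : ∀ v, colour φ τ (16 * v + 2) = if τ v then 3 else 5 := by
    intro v
    unfold colour
    rw [if_neg (by omega), if_neg (by omega), if_pos (by omega),
      show (16 * v + 2) / 16 = v by omega]
  have c3 : ∀ k, 3 ≤ k → k < 15 → colour φ τ (16 * i + k) =
      (tab (τ v1, τ v2, τ v3)).getD (k - 3) 0 := by
    intro k hk hk'
    unfold colour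
    rw [if_neg (by omega), if_neg (by omega), if_neg (by omega),
      show (16 * i + k) / 16 = i by omega, show (16 * i + k) % 16 - 3 = k - 3 by omega, hs]
  have key : ∀ a b c : Bool, ¬ (a = b ∧ b = c) → ∀ k : ℕ × ℕ, k ∈ ([(0, 7), (0, 9), (9, 6), (1, 8),
      (1, 10), (10, 7), (2, 6), (2, 11), (11, 8), (3, 0), (4, 1), (5, 2)] : List (ℕ × ℕ)) →
      Good 8 3 ((tab (a, b, c)).getD k.1 0) ((tab (a, b, c)).getD k.2 0) := by decide
  have key0 : ∀ a b c : Bool, ¬ (a = b ∧ b = c) → ∀ k ∈ ([6, 7, 8] : List ℕ),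
      Good 8 3 0 ((tab (a, b, c)).getD k 0) := by decide
  have keya : ∀ a b c : Bool, ¬ (a = b ∧ b = c) →
      (Good 8 3 ((tab (a, b, c)).getD 0 0) (if a then 5 else 3) ∧
        Good 8 3 ((tab (a, b, c)).getD 3 0) (if a then 3 else 5)) ∧
      (Good 8 3 ((tab (a, b, c)).getD 1 0) (if b then 5 else 3) ∧
        Good 8 3 ((tab (a, b, c)).getD 4 0) (if b then 3 else 5)) ∧
      (Good 8 3 ((tab (a, b, c)).getD 2 0) (if c then 5 else 3) ∧
        Good 8 3 ((tab (a, b, c)).getD 5 0) (if c then 3 else 5)) := by decide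
  have keyb : ∀ a : Bool, Good 8 3 0 (if a then 5 else 3) ∧ Good 8 3 0 (if a then 3 else 5) := by
    decide
  have ka := keya _ _ _ hτ
  simp only [occ, ext, List.mem_cons, List.not_mem_nil, or_false] at he
  rcases he with he | he | he | he
  · rcases he with rfl | rfl | rfl | rfl | rfl | rfl
    · rw [c0, c1]; exact (keyb _).1
    · rw [c0, c2]; exact (keyb _).2
    · rw [c1, c3 3 (by omega) (by omega)]; exact ka.1.1
    · rw [c3 6 (by omega) (by omega), c3 3 (by omega) (by omega)]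
      exact key _ _ _ hτ (3, 0) (by simp)
    · rw [c2, c3 6 (by omega) (by omega)]; exact ka.1.2
    · rw [c0, c3 9 (by omega) (by omega)]; exact key0 _ _ _ hτ 6 (by simp)
  · rcases he with rfl | rfl | rfl | rfl | rfl | rfl
    · rw [c0, c1]; exact (keyb _).1
    · rw [c0, c2]; exact (keyb _).2
    · simp only [add_assoc]
      rw [c1, c3 (1 + 3) (by omega) (by omega)]; exact ka.2.1.1
    · simp only [add_assoc]
      rw [c3 (1 + 6) (by omega) (by omega), c3 (1 + 3) (by omega) (by omega)]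
      exact key _ _ _ hτ (4, 1) (by simp)
    · simp only [add_assoc]
      rw [c2, c3 (1 + 6) (by omega) (by omega)]; exact ka.2.1.2
    · simp only [add_assoc]
      rw [c0, c3 (1 + 9) (by omega) (by omega)]; exact key0 _ _ _ hτ 7 (by simp)
  · rcases he with rfl | rfl | rfl | rfl | rfl | rfl
    · rw [c0, c1]; exact (keyb _).1
    · rw [c0, c2]; exact (keyb _).2
    · simp only [add_assoc]
      rw [c1, c3 (2 + 3) (by omega) (by omega)]; exact ka.2.2.1
    · simp only [add_assoc]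
      rw [c3 (2 + 6) (by omega) (by omega), c3 (2 + 3) (by omega) (by omega)]
      exact key _ _ _ hτ (5, 2) (by simp)
    · simp only [add_assoc]
      rw [c2, c3 (2 + 6) (by omega) (by omega)]; exact ka.2.2.2
    · simp only [add_assoc]
      rw [c0, c3 (2 + 9) (by omega) (by omega)]; exact key0 _ _ _ hτ 8 (by simp)
  · rcases he with rfl | rfl | rfl | rfl | rfl | rfl | rfl | rfl | rfl
    · rw [c3 3 (by omega) (by omega), c3 10 (by omega) (by omega)]
      exact key _ _ _ hτ (0, 7) (by simp)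
    · rw [c3 3 (by omega) (by omega), c3 12 (by omega) (by omega)]
      exact key _ _ _ hτ (0, 9) (by simp)
    · rw [c3 12 (by omega) (by omega), c3 9 (by omega) (by omega)]
      exact key _ _ _ hτ (9, 6) (by simp)
    · rw [c3 4 (by omega) (by omega), c3 11 (by omega) (by omega)]
      exact key _ _ _ hτ (1, 8) (by simp)
    · rw [c3 4 (by omega) (by omega), c3 13 (by omega) (by omega)]
      exact key _ _ _ hτ (1, 10) (by simp)
    · rw [c3 13 (by omega) (by omega), c3 10 (by omega) (by omega)]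
      exact key _ _ _ hτ (10, 7) (by simp)
    · rw [c3 5 (by omega) (by omega), c3 9 (by omega) (by omega)]
      exact key _ _ _ hτ (2, 6) (by simp)
    · rw [c3 5 (by omega) (by omega), c3 14 (by omega) (by omega)]
      exact key _ _ _ hτ (2, 11) (by simp)
    · rw [c3 14 (by omega) (by omega), c3 11 (by omega) (by omega)]
      exact key _ _ _ hτ (11, 8) (by simp)

theorem complete {φ : List (ℕ × ℕ × ℕ)} (h : NAEn φ) :
    ∃ c, IsColouring (red φ).1 (red φ).2 8 3 c := by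
  obtain ⟨τ, hτ⟩ := h
  refine ⟨colour φ τ, (isColouring_iff (by omega)).2 ⟨fun v _ => colour_lt φ τ v, ?_⟩⟩
  refine (forall_normE (edges_ne φ) (P := fun x y => Good 8 3 (colour φ τ x) (colour φ τ y))
    fun _ _ h => h.symm).2 ?_
  intro e he
  obtain ⟨i, v1, v2, v3, hi, he⟩ := mem_edges.1 he
  exact colour_occ hi (hτ _ (List.mem_of_getElem? hi)) e he

/-- If the formula is satisfiable then the circular chromatic number is at most `8 / 3`. -/
theorem le_of_nae {φ : List (ℕ × ℕ × ℕ)} (h : NAEn φ) :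
    circularChromaticNumber (red φ).1 (red φ).2 ≤ 8 / 3 := by
  obtain ⟨c, hc⟩ := complete h
  have := le_of_colouring (by omega) (by omega) hc
  exact_mod_cast this

/-- If the circular chromatic number is less than `3` then the formula is satisfiable. -/
theorem nae_of_lt {φ : List (ℕ × ℕ × ℕ)}
    (h : circularChromaticNumber (red φ).1 (red φ).2 < 3) : NAEn φ := by
  obtain ⟨p, q, c, h1, _, h3, hc⟩ := exists_of_lt (isGraph_norm _) h
  rw [isColouring_iff h1] at hc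
  exact sound h3 hc.1 ((forall_normE (edges_ne φ) (P := fun x y => Good p q (c x) (c y))
    fun _ _ h => h.symm).1 hc.2)

theorem red_correct (φ : List (ℕ × ℕ × ℕ)) : NAEn φ ↔ CircLessThree (red φ) := by
  constructor
  · intro h
    exact ⟨isGraph_norm _, (le_of_nae h).trans_lt (by norm_num)⟩
  · intro h
    exact nae_of_lt h.2

end Pool.Agent.Q231.Circ
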